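import Pool.Agent.Z45.PN.Space

/-!
# The oracles relative to which NP, or even PSPACE, has p-measure zero

By the theorem of Kautz and Miltersen, `NP` does not have p-measure zero relative to a random
oracle: the set `Z` of the oracles relative to which `NP` has p-measure zero is a Lebesgue null
set. It is shown here that this cannot be improved to any notion of smallness given by a gauge
that tends to infinity, however slowly: `Z` is not null for such a gauge, and the same is true for
the smaller set of the oracles relative to which even `PSPACE` has p-measure zero.

Here a set `X` of oracles is null for the gauge `f` if for every `δ > 0` it can be covered by
cylinders, given by the first `N` bits of the oracle for various `N`, with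
`∑ 2 ^ (f N - N) ≤ δ`; for `f = 0` these are the Lebesgue null sets, for `f N = (1 - s) N` the null
sets of the `s`-dimensional Hausdorff measure. How slowly the gauge grows is expressed with the
help of an arbitrary infinite set `S` of numbers which is decidable in polynomial time when the
numbers are written in unary: the gauge `f` is, up to a constant, at least the square of the number
of the elements `n` of `S` with `2 ^ n ≤ log N`. For example `S` can be the set of the values of
the tower function, or of any faster growing function with an easily decidable graph.

Proof: let `0 ^ n` for `n ∈ S` be the only strings on which the martingales bet. At stage `n ∈ S`
the first `r` questions of the form: does the algorithm number `e` with polynomial space accept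
`0 ^ n` (relative to the oracle constructed so far) are answered by the bits of the oracle at the
places `0 ^ (2 ^ n) 1 ^ e`, where `r` is the number of the elements of `S` below `n`. The answers do
not depend on these bits and on longer strings, and all other places keep the bits of an
arbitrary oracle `B`. The martingale number `k` is a weighted sum over `e` of martingales that
double their capital at every `0 ^ n` by betting everything on the bit of the oracle at
`0 ^ (2 ^ n) 1 ^ e`; in the input of the martingale this place has polynomial length.

(helper45)
-/

set_option autoImplicit false

open Pool.Agent.NPC Pool.Agent.H620R2.Gauge Pool.Agent.Z45.PN

/-- Let `S` be an infinite set of numbers, decidable in polynomial time in unary notation, and let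
the gauge `f` be at least the square of the number of the elements `n` of `S` with `2 ^ n ≤ log N`,
up to a constant. Then the set of the oracles relative to which `NP` and even `PSPACE` have
p-measure zero is not null for the gauge `f`. -/
theorem Z45.slow_gauges (S : Set ℕ) (hS : S.Infinite)
    (V : List Bool → List Bool) (hV : PolyTime V)
    (hSV : ∀ n, n ∈ S ↔ V (List.replicate n false) = [true]) (f : ℕ → ℝ) (C : ℝ)
    (hf : ∀ N, (Nat.card {n : ℕ // n ∈ S ∧ 2 ^ n ≤ Nat.log 2 N} : ℝ) ^ 2 ≤ f N + C) :
    ¬ Null f {A : Oracle | PNullRel A {L | IsNP A L} ∧ PNullRel A {L | IsPSPACE A L}} :=
  not_null_pspace hS hV hSV f C hf
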